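import Pool.Agent.H611R3.Lists

/-!
# Two-message proof systems whose verifiers use few NOT gates need many prover bits

In a two-message (Arthur-Merlin) proof system for the complement of a language `L` the verifier
sends a random string `ρ` of `R` bits, the prover answers with `g` bits `z`, and the verifier
decides. We consider non-uniform verifiers which, for all values of `ρ` and `z`, reject the input
`x` iff `f (ρ, z) x = true`, where `f` satisfies `Helped s K f`: for all `ρ` and `z` the function
`f (ρ, z)` is computed by at most `s` AND and OR gates from constants, the bits `x` and the wires of
one of finitely many circuits `C i` which read only `x` and which have at most `s` AND gates, OR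
gates and wires into further gates; the further gates of `C i` are arbitrary (NOT gates, for
instance), but few: the sum over all `i` of `∏ (a + 1) - 1`, the product ranging over the further
gates of `C i`, `a` being the fan-in, is less than `K`. How `f (ρ, z)` depends on `ρ` and `z` is
arbitrary, and the number of random bits is not bounded. For instance, `K = 1` if every `f (ρ, z)`
has a monotone circuit with at most `s` gates, and `K = 2 ^ t' * (2 ^ t - 1) + 1` if there are `t`
NOT gates, which may be fed by gates that depend on `x` and on `t'` of the random bits and of the
bits of the prover, if all other gates are monotone in `x`.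

There is an NP-complete language `L` such that for all `N` and `r`, for some word `h` of length
at most `201 r ^ 8`: the function of `x` in `{0,1} ^ N` which tells whether `h x` is in `L` is
monotone, and every such proof system with `s < 2 ^ (r - 1)` for the complement of this function has
`g > N / (840000 r ^ 16 K) - 4`, if the difference between the acceptance probabilities for true
and for false statements is more than one quarter. This covers perfect completeness with soundness
error one half (as in the definition of `IP(2)`) and two-sided error one third. There are
`A ≤ 2 ^ R` and `B` with the following property: whenever `h x` is not in `L`, then at least `A` of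
the random strings can be answered convincingly; whenever `h x` is in `L`, then at most `B` of them
can.

With `K = N + 2` such verifiers can simulate all verifiers given by circuits of polynomial size
(one NOT gate, which may depend on `⌈log (N + 1)⌉` bits of the prover, who sends the number of ones
of `x`).
-/

namespace Pool.Agent.Results.MP_d404e6_lc.ArthurMerlinNegations

open Pool.Agent.H611R2 Pool.Agent.H611R3 Pool.Agent.NPC

open Classical in
theorem result : ∃ L : Set (List Bool), InNP L ∧ NPHard L ∧ ∀ N r : ℕ, 2 ≤ r →
    ∃ h : List Bool, h.length ≤ 201 * r ^ 8 ∧
      (∀ x y : Fin N → Bool, x ≤ y → h ++ List.ofFn x ∈ L → h ++ List.ofFn y ∈ L) ∧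
      ∀ (s K R g A B : ℕ) (f : (Fin R → Bool) × (Fin g → Bool) → (Fin N → Bool) → Bool),
        2 * s < 2 ^ r → Helped s K f →
        (∀ x : Fin N → Bool, h ++ List.ofFn x ∉ L →
          A ≤ (Finset.univ.filter (fun ρ : Fin R → Bool => ∃ z, f (ρ, z) x = false)).card) →
        (∀ x : Fin N → Bool, h ++ List.ofFn x ∈ L →
          (Finset.univ.filter (fun ρ : Fin R → Bool => ∃ z, f (ρ, z) x = false)).card ≤ B) →
        2 ^ R + 4 * B < 4 * A → N / (40000 * r ^ 16 * K) < 21 * (g + 3) := by
  refine ⟨LC.ListClique, LC.inNP_listClique, LC.npHard_listClique, fun N r hr => ?_⟩
  refine ⟨hdr (200 * r ^ 8) (r ^ 2), hdr_length hr, fun x y hxy hx => ?_, ?_⟩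
  · rw [hdr_mem] at hx ⊢
    exact hasClique_mono hxy hx
  · intro s K R g A B f hs hf hno hyes hAB
    exact am_neg hr hs f hf (fun x hx => by convert hno x hx) (fun x hx => by convert hyes x hx) hAB

end Pool.Agent.Results.MP_d404e6_lc.ArthurMerlinNegations
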