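import Pool.Agent.H752.GM.Final
import Pool.Agent.H406R2.GM.Amadv
import Pool.Agent.H227R2.GM.Incl

/-!
# How many oracles put `coNP` into `AM`?

For every gauge `f`, the set of the oracles `A` for which every language of `coNP` has a
two-message (Arthur–Merlin) proof relative to `A` is a null set for `f` if and only if, for every
`ε > 0`, `f N ≤ 2 ^ ((log N) ^ ε)` for infinitely many `N`. The same holds for every set of oracles
between `{A | EXP ∪ PSPACE ⊆ ZPP ≠ P}` and the set of the `A` with `coNP ⊆ AM` (two-sided error).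
-/

namespace Pool.Agent.Results.MP_d404e6_lc.GaugeThreshold

open Pool.Agent.NPC Pool.Agent.H620R2.Gauge Pool.Agent.H752.GM Filter

theorem result (f : ℕ → ℝ) :
    (Null f {A : Oracle | ∀ L, IsNP A L → IsAM1 A Lᶜ} ↔
      ∀ ε : ℝ, 0 < ε → ∃ᶠ N : ℕ in atTop, f N ≤ 2 ^ (Real.logb 2 N) ^ ε) ∧
    (Null f {A : Oracle | ∀ L, IsNP A L → IsAM A Lᶜ} ↔
      ∀ ε : ℝ, 0 < ε → ∃ᶠ N : ℕ in atTop, f N ≤ 2 ^ (Real.logb 2 N) ^ ε) ∧
    ∀ O : Set Oracle,
      (∀ A : Oracle, (∀ L, IsEXP A L ∨ IsPSPACE A L → IsZPP A L) →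
        (∃ L, IsZPP A L ∧ ¬ IsP A L) → A ∈ O) →
      (∀ A ∈ O, ∀ L, IsNP A L → IsAM A Lᶜ) →
      (Null f O ↔
        ∀ ε : ℝ, 0 < ε → ∃ᶠ N : ℕ in atTop, f N ≤ 2 ^ (Real.logb 2 N) ^ ε) :=
  ⟨final_am t_amadv f _ (fun _ h _ => conp_am1 t_incl h)
      (fun _ hA L hL => t_incl.2.2 _ _ (hA L hL)),
    final_am t_amadv f _ (fun _ h _ L hL => t_incl.2.2 _ _ (conp_am1 t_incl h L hL))
      (fun _ hA => hA),
    fun O h1 h2 => final_am t_amadv f O h1 h2⟩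

end Pool.Agent.Results.MP_d404e6_lc.GaugeThreshold
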